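import Pool.Agent.Helper6.REC.Core
import Pool.Agent.Helper51.REC.Goals2
import Pool.Agent.Helper40.RS.Gal

/-!
# Project REC (MP_fc6b1e_nt): packet D_CMP (comparison of `F` and `E`)
-/

set_option autoImplicit false

namespace Pool.Agent.Helper6.REC

open NumberField Module IsDedekindDomain Pool.Agent.Helper51.RP Pool.Agent.Helper42.PP
open Pool.Agent.Helper51.REC Pool.Agent.Helper42.RD
open Pool.Agent.Helper40.RS (bel)

theorem inc_val {F E : Type} [Field F] [Field E] [Algebra F E] (x : Fˣ) :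
    ((inc F E x : Eˣ) : E) = algebraMap F E (x : F) := rfl

theorem absNorm_bel {F E : Type} [Field F] [NumberField F] [Field E] [NumberField E] [Algebra F E]
    (w : HeightOneSpectrum (𝓞 E)) :
    ∃ f : ℕ, Ideal.absNorm w.asIdeal = Ideal.absNorm (bel F w).asIdeal ^ f :=
  ⟨_, Ideal.absNorm_eq_pow_inertiaDeg'_of_liesOver w.asIdeal (bel F w).asIdeal
    (bel F w).isPrime (bel F w).ne_bot⟩

theorem d_cmp (h1 : K_BAS) (h2 : K_EXT) (h3 : K_BRK) (h4 : K_LOC) (h5 : L_LIN) (h6 : D_NRM) :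
    D_CMP := by
  classical
  intro p hp F E _ _ _ _ _ _ ε S hs hs' c hc hlaw hne x hx G G' ρ ρ' hρ hρ' hG hG' α
  obtain ⟨n1, n2, n3⟩ := h6 p F E S hs.fin
  have hpr := hs.prin
  have hpr' := hs'.prin
  have hu : UH p S ρ := ⟨hρ.hom, hρ.unit⟩
  have hu' : UH p (upS E S) ρ' := ⟨hρ'.hom, hρ'.unit⟩
  have hb := brk_uh h3 hs' (inc F E c)
  -- the difference
  set δ : Eˣ → ZMod p := fun a => ρ' a - ρ (nrm F E a) with hδ
  have hd : UH p (upS E S) δ := by
    refine ⟨fun a b => ?_, fun u hu => ?_⟩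
    · show ρ' (a * b) - ρ (nrm F E (a * b)) = (ρ' a - ρ (nrm F E a)) + (ρ' b - ρ (nrm F E b))
      rw [map_mul, hρ'.hom, hρ.hom]
      ring
    · show ρ' u - ρ (nrm F E u) = 0
      rw [hρ'.unit u hu, hρ.unit _ (n1 u hu), sub_zero]
  have hdl : ∀ β : Eˣ, LocS p (upS E S) β → δ β = 0 := by
    intro β hβ
    show ρ' β - ρ (nrm F E β) = 0
    rw [hρ'.loc β hβ, hρ.loc _ (n2 β hβ), sub_zero]
  -- the claim
  have claim : ∀ α : Eˣ, brk p (algebraMap F E ε) (upS E S) (inc F E c) α ≠ 0 → δ α = 0 := by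
    intro α hα
    obtain ⟨γ, V', hγ, hV'⟩ := h5 p E (algebraMap F E ε) (upS E S) hs' α (by
      rintro ⟨u, hu1, hu2⟩
      apply hα
      have e := hlaw _ hu2
      rw [hb.hom, hb.unit u hu1, add_zero] at e
      exact e)
    obtain ⟨a, ha⟩ := exists_div hpr' hV'.1
    have e1 : brk p (algebraMap F E ε) (upS E S) (inc F E c) (α * γ) =
        brk p (algebraMap F E ε) (upS E S) (inc F E c) α := by
      rw [hb.hom, hlaw γ hγ, add_zero]
    have e2 := brk_only h3 hs' (inc F E c) (α * γ) hV'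
    rw [e1] at e2
    have hk' : kap p (algebraMap F E ε) V' (inc F E c) ≠ 0 := by
      intro h0
      rw [h0, mul_zero] at e2
      exact hα e2
    -- the prime below
    have hVV : Above V' (bel F V') := rfl
    have hVS : bel F V' ∉ S := fun h => hV'.1 ⟨_, h, hVV⟩
    obtain ⟨f, hf⟩ := absNorm_bel (F := F) V'
    have hVp := val_p hs.abp hVS
    have hdiv : ∀ z ∈ S.unit F, (p : ℤ) ∣ ordv (bel F V') (z : F) := by
      intro z hz
      rw [mem_unit.1 hz _ hVS]
      exact dvd_zero _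
    have k1 := h2 p F E ε hs.prim (bel F V') V' hVV hVp f hf c (hdiv c hc)
    have k2 := h2 p F E ε hs.prim (bel F V') V' hVV hVp f hf x (hdiv x hx)
    have hk : kap p ε (bel F V') c ≠ 0 := by
      intro h0
      rw [h0, mul_zero] at k1
      exact hk' k1
    obtain ⟨-, o1, o2⟩ := n3 a V' ha (bel F V') f hVV hf
    obtain ⟨a₀, ha₀⟩ := exists_div hpr hVS
    have r1 : ρ (nrm F E a) = f * kap p ε (bel F V') x := by
      have r := hu.val_only hpr ha₀ (nrm F E a) (fun W hW hne => by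
        rw [o2 W hW hne]
        exact dvd_zero _)
      rw [r, o1, hρ.val _ (hG _ hVS hk) a₀ ha₀, Int.cast_natCast]
    have r2 : ρ' a = f * kap p ε (bel F V') x := by
      rw [hρ'.val V' (hG' V' hV'.1 hk') a ha, k2]
    have r3 : δ a = 0 := by
      show ρ' a - ρ (nrm F E a) = 0
      rw [r1, r2, sub_self]
    have r4 := hd.val_only hpr' ha (α * γ) hV'.2.2
    rw [r3, mul_zero, hd.hom, hdl γ hγ, add_zero] at r4
    exact r4
  -- the end
  have fin : δ α = 0 := by
    by_cases h0 : brk p (algebraMap F E ε) (upS E S) (inc F E c) α = 0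
    · obtain ⟨α', hα'⟩ := hne
      have e1 := claim α' hα'
      have e2 := claim (α * α') (by rw [hb.hom, h0, zero_add]; exact hα')
      rw [hd.hom, e1, add_zero] at e2
      exact e2
    · exact claim α h0
  exact sub_eq_zero.1 fin

end Pool.Agent.Helper6.REC
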