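import Pool.Agent.Helper6.REC.Core
import Pool.Agent.Helper51.REC.Goals2

/-!
# Project REC (MP_fc6b1e_nt): packet R_ONE (the one-sided law)
-/

set_option autoImplicit false

namespace Pool.Agent.Helper6.REC

open NumberField Module IsDedekindDomain Pool.Agent.Helper51.RP Pool.Agent.Helper42.PP
open Pool.Agent.Helper51.REC Pool.Agent.Helper42.RD

theorem r_one (h1 : K_BAS) (h2 : K_LOC) (h3 : K_BRK) (h4 : H_A) (h5 : L_LIN) (h6 : D_ALL) :
    R_ONE := by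
  classical
  intro p hp F _ _ ε S₀ hs₀ x hx β hβ
  obtain ⟨-, -, -, b4, b5⟩ := h3 p F ε S₀ hs₀.prim hs₀.abp
  obtain ⟨l1, -, -, l4, -⟩ := h2 p F S₀ hs₀.fin
  have hfin : {W : HeightOneSpectrum (𝓞 F) | W ∉ S₀ ∧ ¬ (p : ℤ) ∣ ordv W (β : F)}.Finite :=
    (b5 β).subset fun W hW => hW.2
  have hZ : ∀ W, W ∈ hfin.toFinset ↔ W ∉ S₀ ∧ ¬ (p : ℤ) ∣ ordv W (β : F) := by
    intro W
    rw [Set.Finite.mem_toFinset]
    rfl
  obtain ⟨S, hSS, hs, hZS, c₁, c₂, hc₁, hc₂, hl₁, hl₂, ⟨β', hβ'1, hβ'2, hβ'3⟩, hall⟩ :=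
    h6 p F ε S₀ hs₀ hfin.toFinset fun W hW => ((hZ W).1 hW).1
  have hxS : x ∈ S.unit F := mem_unit.2 fun w hw => mem_unit.1 hx w fun h => hw (hSS h)
  obtain ⟨ρ, hρ⟩ := hall x hxS
  have hu : UH p S ρ := ⟨hρ.hom, hρ.unit⟩
  have hpr := hs.prin
  have hb₁ := brk_uh h3 hs c₁
  have hb₂ := brk_uh h3 hs c₂
  obtain ⟨l1', -, -, l4', -⟩ := h2 p F S hs.fin
  -- (i)
  have hi : ρ β = brk p ε S₀ x β := by
    have hex : ∀ W : HeightOneSpectrum (𝓞 F), ∃ a : Fˣ, W ∉ S → DivIs S a W := by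
      intro W
      by_cases hW : W ∈ S
      · exact ⟨1, fun h => absurd hW h⟩
      · obtain ⟨a, ha⟩ := exists_div hpr hW
        exact ⟨a, fun _ => ha⟩
    choose a ha using hex
    have e1 := hu.val hpr hfin.toFinset a (fun W hW => ha W (hZS W hW)) β (fun W hW hWZ => by
      by_contra hcon
      exact hWZ ((hZ W).2 ⟨fun h => hW (hSS h), hcon⟩))
    rw [e1, b4 x β hfin.toFinset (fun W hW => ((hZ W).1 hW).1)
      (fun W hW h => (hZ W).2 ⟨hW, h⟩)]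
    refine Finset.sum_congr rfl fun W hW => ?_
    have hWS := hZS W hW
    rw [hρ.val W ⟨hWS, Or.inr (Or.inr hW)⟩ (a W) (ha W hWS)]
  -- (ii)
  have hii : ∀ b : Fˣ, LocS p S₀ b → (∀ v ∈ S, (p : ℤ) ∣ ordv v (b : F)) →
      (brk p ε S c₁ b ≠ 0 ∨ brk p ε S c₂ b ≠ 0) → ρ b = 0 := by
    intro b hb1 hb2 hb3
    obtain ⟨γ, V, hγ, hV⟩ := h5 p F ε S hs b (by
      rintro ⟨u, hu1, hu2⟩
      have e1 := hl₁ _ hu2
      have e2 := hl₂ _ hu2
      rw [hb₁.hom, hb₁.unit u hu1, add_zero] at e1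
      rw [hb₂.hom, hb₂.unit u hu1, add_zero] at e2
      rcases hb3 with h | h
      · exact h e1
      · exact h e2)
    have e1 : brk p ε S c₁ b = ((ordv V ((b * γ : Fˣ) : F) : ℤ) : ZMod p) * kap p ε V c₁ := by
      rw [← brk_only h3 hs c₁ (b * γ) hV, hb₁.hom, hl₁ γ hγ, add_zero]
    have e2 : brk p ε S c₂ b = ((ordv V ((b * γ : Fˣ) : F) : ℤ) : ZMod p) * kap p ε V c₂ := by
      rw [← brk_only h3 hs c₂ (b * γ) hV, hb₂.hom, hl₂ γ hγ, add_zero]
    have hVG : kap p ε V c₁ ≠ 0 ∨ kap p ε V c₂ ≠ 0 := by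
      rcases hb3 with h | h
      · left
        intro h0
        rw [h0, mul_zero] at e1
        exact h e1
      · right
        intro h0
        rw [h0, mul_zero] at e2
        exact h e2
    obtain ⟨a, ha⟩ := exists_div hpr hV.1
    have e3 : ρ b = ((ordv V ((b * γ : Fˣ) : F) : ℤ) : ZMod p) * kap p ε V x := by
      have e4 := hu.val_only hpr ha (b * γ) hV.2.2
      have hVG' : V ∈ {W | W ∉ S ∧ (kap p ε W c₁ ≠ 0 ∨ kap p ε W c₂ ≠ 0 ∨ W ∈ hfin.toFinset)} := by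
        refine ⟨hV.1, ?_⟩
        rcases hVG with h | h
        · exact Or.inl h
        · exact Or.inr (Or.inl h)
      rw [hρ.hom, hρ.loc γ hγ, add_zero, hρ.val V hVG' a ha] at e4
      exact e4
    -- the only prime outside S₀
    have hπ : LocS p S₀ (b * γ) := l1 b γ hb1 (locS_mono hSS hγ)
    have honly : ∀ W, W ∈ ({V} : Finset (HeightOneSpectrum (𝓞 F))) ↔
        W ∉ S₀ ∧ ¬ (p : ℤ) ∣ ordv W ((b * γ : Fˣ) : F) := by
      intro W
      rw [Finset.mem_singleton]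
      constructor
      · rintro rfl
        exact ⟨fun h => hV.1 (hSS h), hV.2.1⟩
      · rintro ⟨-, hW2⟩
        by_contra hne
        apply hW2
        by_cases hWS : W ∈ S
        · rw [ordv_mulU]
          exact dvd_add (hb2 W hWS) (l4' γ hγ W hWS)
        · exact hV.2.2 W hWS hne
    have hnp : ¬ Pw p (b * γ) := by
      rintro ⟨y, hy⟩
      apply hV.2.1
      rw [hy, ordv_powU]
      exact dvd_mul_right _ _
    obtain ⟨m, ⟨W, hW, hmW⟩, hm⟩ := h4 p F ε S₀ hs₀ (b * γ) hπ hnp {V} honly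
    rw [Finset.mem_singleton] at hW
    subst hW
    have e5 := hm x hx
    rw [Finset.sum_singleton] at e5
    rcases mul_eq_zero.1 e5 with h | h
    · exact absurd h hmW
    · rw [e3, h, mul_zero]
  -- (iii)
  have hβS : ∀ v ∈ S, (p : ℤ) ∣ ordv v (β : F) := by
    intro v hv
    by_cases hv₀ : v ∈ S₀
    · exact l4 β hβ v hv₀
    · by_contra hcon
      exact hZS v ((hZ v).2 ⟨hv₀, hcon⟩) hv
  have hβ'S : ∀ v ∈ S, (p : ℤ) ∣ ordv v (β' : F) := by
    intro v hv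
    rw [hβ'2 v hv]
    exact dvd_zero _
  have hfinal : ρ β = 0 := by
    by_cases h0 : brk p ε S c₂ β = 0
    · have e1 := hii β' hβ'1 hβ'S (Or.inr hβ'3)
      have e2 := hii (β * β') (l1 β β' hβ hβ'1) (fun v hv => by
        rw [ordv_mulU]
        exact dvd_add (hβS v hv) (hβ'S v hv)) (Or.inr (by rw [hb₂.hom, h0, zero_add]; exact hβ'3))
      rw [hρ.hom, e1, add_zero] at e2
      exact e2
    · exact hii β hβ hβS (Or.inr h0)
  rw [← hi, hfinal]

end Pool.Agent.Helper6.REC
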