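import Pool.Agent.Helper51.REC.Goals1
import Pool.Agent.Helper42.RD.VAL

/-!
# Project REC (MP_fc6b1e_nt): homomorphisms which are trivial on the units
-/

set_option autoImplicit false

namespace Pool.Agent.Helper6.REC

open NumberField Module IsDedekindDomain Pool.Agent.Helper51.RP Pool.Agent.Helper42.PP
open Pool.Agent.Helper51.REC Pool.Agent.Helper42.RD

section one

variable {F : Type} [Field F] [NumberField F]

theorem ordv_mulU (w : HeightOneSpectrum (𝓞 F)) (x y : Fˣ) :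
    ordv w ((x * y : Fˣ) : F) = ordv w (x : F) + ordv w (y : F) := by
  rw [Units.val_mul, ordv_mul w x.ne_zero y.ne_zero]

theorem ordv_powU (w : HeightOneSpectrum (𝓞 F)) (x : Fˣ) (n : ℕ) :
    ordv w ((x ^ n : Fˣ) : F) = n * ordv w (x : F) := by
  rw [Units.val_pow_eq_pow_val, ordv_pow]

theorem ordv_zpowU (w : HeightOneSpectrum (𝓞 F)) (x : Fˣ) (n : ℤ) :
    ordv w ((x ^ n : Fˣ) : F) = n * ordv w (x : F) := by
  rw [Units.val_zpow_eq_zpow_val, ordv_zpow w x.ne_zero]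

theorem ordv_invU (w : HeightOneSpectrum (𝓞 F)) (x : Fˣ) :
    ordv w ((x⁻¹ : Fˣ) : F) = - ordv w (x : F) := by
  rw [Units.val_inv_eq_inv_val, ordv_inv w x.ne_zero]

theorem ordv_oneU (w : HeightOneSpectrum (𝓞 F)) : ordv w ((1 : Fˣ) : F) = 0 := by
  unfold ordv
  rw [Units.val_one, map_one, WithZero.log_one, neg_zero]

theorem ordv_prodU {ι : Type} (w : HeightOneSpectrum (𝓞 F)) (s : Finset ι) (f : ι → Fˣ) :
    ordv w ((∏ i ∈ s, f i : Fˣ) : F) = ∑ i ∈ s, ordv w (f i : F) := by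
  classical
  induction s using Finset.induction_on with
  | empty => rw [Finset.prod_empty, Finset.sum_empty, ordv_oneU]
  | insert a s ha ih => rw [Finset.prod_insert ha, Finset.sum_insert ha, ordv_mulU, ih]

theorem mem_unit {S : Set (HeightOneSpectrum (𝓞 F))} {x : Fˣ} :
    x ∈ S.unit F ↔ ∀ w ∉ S, ordv w (x : F) = 0 := by
  constructor
  · intro h w hw
    rw [ordv_eq_zero_iff w x.ne_zero]
    exact h w hw
  · intro h w hw
    rw [← ordv_eq_zero_iff w x.ne_zero]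
    exact h w hw

/-- A finite set contains the primes at which the valuation is not zero. -/
theorem ordv_fin (x : Fˣ) : {w : HeightOneSpectrum (𝓞 F) | ordv w (x : F) ≠ 0}.Finite := by
  obtain ⟨a, b, hb, hab⟩ := IsFractionRing.div_surjective (A := 𝓞 F) (x : F)
  have hb0 : b ≠ 0 := nonZeroDivisors.ne_zero hb
  have ha0 : a ≠ 0 := by
    rintro rfl
    rw [map_zero, zero_div] at hab
    exact x.ne_zero hab.symm
  have hf : ∀ c : 𝓞 F, c ≠ 0 → {w : HeightOneSpectrum (𝓞 F) | c ∈ w.asIdeal}.Finite := by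
    intro c hc
    have h1 := Ideal.finite_factors (I := Ideal.span {c}) (by
      rw [Ne, Ideal.zero_eq_bot, Ideal.span_singleton_eq_bot]; exact hc)
    refine h1.subset fun w hw => ?_
    show w.asIdeal ∣ Ideal.span {c}
    rw [Ideal.dvd_span_singleton]
    exact hw
  refine ((hf a ha0).union (hf b hb0)).subset fun w hw => ?_
  by_contra hcon
  simp only [Set.mem_union, Set.mem_ofPred_eq, not_or] at hcon
  apply hw
  rw [ordv_eq_zero_iff w x.ne_zero, ← hab, map_div₀]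
  have h1 : w.valuation F (algebraMap (𝓞 F) F a) = 1 := val_of_notMem w hcon.1
  have h2 : w.valuation F (algebraMap (𝓞 F) F b) = 1 := val_of_notMem w hcon.2
  rw [h1, h2, div_one]

/-- An element with the divisor `V` outside `S`. -/
theorem exists_div {S : Set (HeightOneSpectrum (𝓞 F))}
    (hS : ∀ n : HeightOneSpectrum (𝓞 F) →₀ ℤ, ∃ x : Fˣ, ∀ W ∉ S, ordv W (x : F) = n W)
    {V : HeightOneSpectrum (𝓞 F)} (hV : V ∉ S) : ∃ a : Fˣ, DivIs S a V := by
  classical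
  obtain ⟨a, ha⟩ := hS (Finsupp.single V 1)
  refine ⟨a, hV, ?_, fun W hW hWV => ?_⟩
  · rw [ha V hV, Finsupp.single_eq_same]
  · rw [ha W hW, Finsupp.single_eq_of_ne hWV]

/-- Decomposition of an element whose valuations are multiples of `p` outside `S` and the finite set `Z`. -/
theorem decomp {p : ℕ} {S : Set (HeightOneSpectrum (𝓞 F))}
    (hS : ∀ n : HeightOneSpectrum (𝓞 F) →₀ ℤ, ∃ x : Fˣ, ∀ W ∉ S, ordv W (x : F) = n W)
    (Z : Finset (HeightOneSpectrum (𝓞 F))) (a : HeightOneSpectrum (𝓞 F) → Fˣ)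
    (ha : ∀ W ∈ Z, DivIs S (a W) W) (β : Fˣ)
    (hβ : ∀ W ∉ S, W ∉ Z → (p : ℤ) ∣ ordv W (β : F)) :
    ∃ e u : Fˣ, u ∈ S.unit F ∧ β = (∏ W ∈ Z, a W ^ ordv W (β : F)) * e ^ p * u := by
  classical
  set b : Fˣ := β * (∏ W ∈ Z, a W ^ ordv W (β : F))⁻¹ with hb
  have hbo : ∀ W ∉ S, (p : ℤ) ∣ ordv W (b : F) := by
    intro W hW
    rw [hb, ordv_mulU, ordv_invU, ordv_prodU]
    simp only [ordv_zpowU]
    by_cases hWZ : W ∈ Z
    · rw [Finset.sum_eq_single_of_mem W hWZ, (ha W hWZ).2.1, mul_one, add_neg_cancel]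
      · exact dvd_zero _
      · intro W' hW' hne
        rw [(ha W' hW').2.2 W hW hne.symm, mul_zero]
    · rw [Finset.sum_eq_zero, neg_zero, add_zero]
      · exact hβ W hW hWZ
      · intro W' hW'
        rw [(ha W' hW').2.2 W hW (fun h => hWZ (h ▸ hW')), mul_zero]
  obtain ⟨e, he⟩ := hS (Finsupp.ofSupportFinite (fun W => ordv W (b : F) / p) ((ordv_fin b).subset (by
    intro W hW h
    apply hW
    show ordv W (b : F) / p = 0
    rw [h, Int.zero_ediv])))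
  refine ⟨e, b * (e ^ p)⁻¹, mem_unit.2 fun W hW => ?_, ?_⟩
  · rw [ordv_mulU, ordv_invU, ordv_powU, he W hW]
    have h1 : (Finsupp.ofSupportFinite (fun W => ordv W (b : F) / p) ((ordv_fin b).subset (by
      intro W hW h
      apply hW
      show ordv W (b : F) / p = 0
      rw [h, Int.zero_ediv]))) W = ordv W (b : F) / p := rfl
    rw [h1, Int.mul_ediv_cancel' (hbo W hW), add_neg_cancel]
  · rw [hb, mul_comm (∏ W ∈ Z, a W ^ ordv W (β : F)) (e ^ p)]
    generalize (∏ W ∈ Z, a W ^ ordv W (β : F)) = q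
    rw [mul_assoc (e ^ p) q, mul_assoc β, ← mul_assoc q, mul_comm q β, mul_assoc β q,
      ← mul_assoc q, mul_inv_cancel, one_mul, mul_comm (e ^ p), inv_mul_cancel_right]

/-- A homomorphism to `ZMod p` which is trivial on the `S`-units. -/
structure UH (p : ℕ) (S : Set (HeightOneSpectrum (𝓞 F))) (ρ : Fˣ → ZMod p) : Prop where
  hom : ∀ a b, ρ (a * b) = ρ a + ρ b
  unit : ∀ u ∈ S.unit F, ρ u = 0

theorem UH.one {p : ℕ} {S : Set (HeightOneSpectrum (𝓞 F))} {ρ : Fˣ → ZMod p} (h : UH p S ρ) :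
    ρ 1 = 0 := h.unit 1 (Subgroup.one_mem _)

/-- The homomorphism. -/
def UH.mh {p : ℕ} {S : Set (HeightOneSpectrum (𝓞 F))} {ρ : Fˣ → ZMod p} (h : UH p S ρ) :
    Fˣ →* Multiplicative (ZMod p) where
  toFun x := Multiplicative.ofAdd (ρ x)
  map_one' := by rw [h.one]; rfl
  map_mul' x y := by rw [h.hom]; rfl

theorem UH.pow {p : ℕ} {S : Set (HeightOneSpectrum (𝓞 F))} {ρ : Fˣ → ZMod p} (h : UH p S ρ)
    (x : Fˣ) : ρ (x ^ p) = 0 := by
  have h1 : h.mh (x ^ p) = h.mh x ^ p := map_pow _ _ _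
  have h2 := congrArg Multiplicative.toAdd h1
  rw [toAdd_pow] at h2
  have h3 : ρ (x ^ p) = p • ρ x := h2
  rw [h3, nsmul_eq_mul, ZMod.natCast_self, zero_mul]

theorem UH.inv {p : ℕ} {S : Set (HeightOneSpectrum (𝓞 F))} {ρ : Fˣ → ZMod p} (h : UH p S ρ)
    (x : Fˣ) : ρ x⁻¹ = - ρ x := by
  have h1 := h.hom x x⁻¹
  rw [mul_inv_cancel, h.one] at h1
  exact (neg_eq_of_add_eq_zero_right h1.symm).symm

/-- The value at an element whose valuations are multiples of `p` outside `S` and the finite set `Z`. -/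
theorem UH.val {p : ℕ} {S : Set (HeightOneSpectrum (𝓞 F))} {ρ : Fˣ → ZMod p} (h : UH p S ρ)
    (hS : ∀ n : HeightOneSpectrum (𝓞 F) →₀ ℤ, ∃ x : Fˣ, ∀ W ∉ S, ordv W (x : F) = n W)
    (Z : Finset (HeightOneSpectrum (𝓞 F))) (a : HeightOneSpectrum (𝓞 F) → Fˣ)
    (ha : ∀ W ∈ Z, DivIs S (a W) W) (β : Fˣ)
    (hβ : ∀ W ∉ S, W ∉ Z → (p : ℤ) ∣ ordv W (β : F)) :
    ρ β = ∑ W ∈ Z, ((ordv W (β : F) : ℤ) : ZMod p) * ρ (a W) := by
  obtain ⟨e, u, hu, hβe⟩ := decomp hS Z a ha β hβ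
  have h1 : ρ β = ρ (∏ W ∈ Z, a W ^ ordv W (β : F)) := by
    conv_lhs => rw [hβe]
    rw [h.hom, h.hom, h.pow, h.unit u hu, add_zero, add_zero]
  rw [h1]
  have h2 : h.mh (∏ W ∈ Z, a W ^ ordv W (β : F)) = ∏ W ∈ Z, h.mh (a W) ^ ordv W (β : F) := by
    rw [map_prod]
    exact Finset.prod_congr rfl fun W _ => map_zpow _ _ _
  have h3 := congrArg Multiplicative.toAdd h2
  rw [toAdd_prod] at h3
  refine Eq.trans h3 (Finset.sum_congr rfl fun W _ => ?_)
  rw [toAdd_zpow, zsmul_eq_mul]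
  rfl

/-- The value at an element with only one prime. -/
theorem UH.val_only {p : ℕ} {S : Set (HeightOneSpectrum (𝓞 F))} {ρ : Fˣ → ZMod p} (h : UH p S ρ)
    (hS : ∀ n : HeightOneSpectrum (𝓞 F) →₀ ℤ, ∃ x : Fˣ, ∀ W ∉ S, ordv W (x : F) = n W)
    {V : HeightOneSpectrum (𝓞 F)} {a : Fˣ} (ha : DivIs S a V) (β : Fˣ)
    (hβ : ∀ W ∉ S, W ≠ V → (p : ℤ) ∣ ordv W (β : F)) :
    ρ β = ((ordv V (β : F) : ℤ) : ZMod p) * ρ a := by
  classical
  have h1 := h.val hS {V} (fun _ => a) (fun W hW => by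
    rw [Finset.mem_singleton] at hW; subst hW; exact ha) β (fun W hW hWZ => hβ W hW (by
      rw [Finset.mem_singleton] at hWZ; exact hWZ))
  rw [Finset.sum_singleton] at h1
  exact h1

/-- `[c, ·]` is a homomorphism, trivial on the units. -/
theorem brk_uh (h3 : K_BRK) {p : ℕ} [Fact p.Prime] {ε : F} {S : Set (HeightOneSpectrum (𝓞 F))}
    (hs : Sit p F ε S) (c : Fˣ) : UH p S (brk p ε S c) := by
  obtain ⟨k1, k2, -, -, -⟩ := h3 p F ε S hs.prim hs.abp
  refine ⟨k1 c, fun u hu => k2 c u fun W hW => ?_⟩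
  rw [mem_unit.1 hu W hW]
  exact dvd_zero _

/-- `[c, β]` if there is only one prime. -/
theorem brk_only (h3 : K_BRK) {p : ℕ} [Fact p.Prime] {ε : F} {S : Set (HeightOneSpectrum (𝓞 F))}
    (hs : Sit p F ε S) (c β : Fˣ) {V : HeightOneSpectrum (𝓞 F)} (hV : Only p S β V) :
    brk p ε S c β = ((ordv V (β : F) : ℤ) : ZMod p) * kap p ε V c := by
  classical
  obtain ⟨-, -, -, k4, -⟩ := h3 p F ε S hs.prim hs.abp
  rw [k4 c β {V}, Finset.sum_singleton]
  · intro W hW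
    rw [Finset.mem_singleton] at hW
    subst hW
    exact hV.1
  · intro W hW h
    rw [Finset.mem_singleton]
    by_contra hne
    exact h (hV.2.2 W hW hne)

theorem val_p {p : ℕ} {S : Set (HeightOneSpectrum (𝓞 F))}
    (h : ∀ W : HeightOneSpectrum (𝓞 F), W.valuation F (p : F) < 1 → W ∈ S)
    {V : HeightOneSpectrum (𝓞 F)} (hV : V ∉ S) : V.valuation F (p : F) = 1 := by
  have h1 : V.valuation F (p : F) ≤ 1 := by
    have h2 : V.valuation F (algebraMap (𝓞 F) F (p : 𝓞 F)) ≤ 1 := V.valuation_le_one _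
    have e : algebraMap (𝓞 F) F (p : 𝓞 F) = (p : F) := map_natCast (algebraMap (𝓞 F) F) p
    rwa [e] at h2
  rcases lt_or_eq_of_le h1 with h2 | h2
  · exact absurd (h V h2) hV
  · exact h2

theorem locS_mono {p : ℕ} {Z Z' : Set (HeightOneSpectrum (𝓞 F))} (h : Z ⊆ Z') {x : Fˣ}
    (hx : LocS p Z' x) : LocS p Z x := by
  obtain ⟨y, hy⟩ := hx
  exact ⟨y, fun w hw => hy w (h hw)⟩

end one

end Pool.Agent.Helper6.REC
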